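import Pool.Agent.NUF.FIN

/-!
# The partition function of the sphere lattice is a polynomial in `n'` with nonnegative coefficients
-/

set_option autoImplicit false

namespace Pool.Agent.NUB

open Polynomial Filter Topology
open Pool.Agent.NUF Pool.Agent.NUF.LPat Pool.Agent.NUG
open Pool.Agent.EXL (Pat)

/-- A polynomial function of `n'` with real nonnegative coefficients. -/
def NP (F : ℂ → ℂ) : Prop := ∃ P : ℝ[X], (∀ k, 0 ≤ P.coeff k) ∧ ∀ n', F n' = aeval n' P

theorem NP.const {a : ℝ} (ha : 0 ≤ a) : NP (fun _ => (a : ℂ)) := by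
  refine ⟨C a, fun k => ?_, fun n' => by simp⟩
  rw [coeff_C]
  split_ifs
  · exact ha
  · exact le_rfl

theorem NP.zero : NP (fun _ => 0) := by simpa using NP.const (le_refl (0 : ℝ))

theorem NP.one : NP (fun _ => 1) := by simpa using NP.const (zero_le_one (α := ℝ))

theorem NP.id : NP (fun n' => n') := by
  refine ⟨X, fun k => ?_, fun n' => by simp⟩
  rw [coeff_X]
  split_ifs
  · exact zero_le_one
  · exact le_rfl

theorem NP.add {F G : ℂ → ℂ} (hF : NP F) (hG : NP G) : NP (fun n' => F n' + G n') := by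
  obtain ⟨P, hP, h1⟩ := hF
  obtain ⟨Q, hQ, h2⟩ := hG
  refine ⟨P + Q, fun k => ?_, fun n' => by simp only [h1, h2, map_add]⟩
  rw [coeff_add]
  exact add_nonneg (hP k) (hQ k)

theorem NP.mul {F G : ℂ → ℂ} (hF : NP F) (hG : NP G) : NP (fun n' => F n' * G n') := by
  obtain ⟨P, hP, h1⟩ := hF
  obtain ⟨Q, hQ, h2⟩ := hG
  refine ⟨P * Q, fun k => ?_, fun n' => by simp only [h1, h2, map_mul]⟩
  rw [coeff_mul]
  exact Finset.sum_nonneg fun x _ => mul_nonneg (hP _) (hQ _)

theorem NP.sum {α : Type*} (s : Finset α) {F : α → ℂ → ℂ} (hF : ∀ a ∈ s, NP (F a)) :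
    NP (fun n' => ∑ a ∈ s, F a n') := by
  classical
  induction s using Finset.induction_on with
  | empty => simpa using NP.zero
  | insert a s ha ih =>
    simp only [Finset.sum_insert ha]
    exact (hF a (Finset.mem_insert_self a s)).add (ih fun b hb => hF b (Finset.mem_insert_of_mem hb))

theorem NP.congr {F G : ℂ → ℂ} (hF : NP F) (h : ∀ n', G n' = F n') : NP G := by
  have : G = F := funext h
  rw [this]
  exact hF

set_option linter.unusedSectionVars false

section gm

variable {ι : Type*} [DecidableEq ι]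

theorem np_nu2 (g : ZMod 2) : NP (fun n' => nu2 n' g) := by
  unfold nu2
  by_cases h : g = 0
  · simpa [h] using NP.zero
  · simpa [h] using NP.id

theorem np_gm {L : List (ι × ι)} (hG : Gd L) : ∀ P : LPat (ZMod 2) ι, NP (fun n' => gm (nu2 n') L P) := by
  induction L with
  | nil =>
    intro P
    simp only [gm_nil]
    unfold dl
    split_ifs
    · exact NP.one
    · exact NP.zero
  | cons t L ih =>
    intro P
    obtain ⟨g1, g2, g3⟩ := Gd_cons.1 hG
    simp only [gm_cons, glue_apply g1]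
    have ih := ih g3
    refine NP.add ?_ ?_
    · split_ifs
      · exact ih P
      · exact NP.zero
      · exact NP.zero
    · split_ifs
      · refine NP.mul ?_ (ih _)
        by_cases h : P t.1 = t.2
        · exact (np_nu2 (P.s t.1)).congr fun n' => lw_pos (p := P) (nu2 n') h
        · exact NP.one.congr fun n' => lw_neg (p := P) (nu2 n') h
      · exact NP.zero

theorem np_fnl [Finite ι] {V : Fnl ι} (hV : PosC V) {F : ℂ → Pat ι → ℂ}
    (hF : ∀ p, NP (fun n' => F n' p)) : NP (fun n' => V (F n')) := by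
  classical
  have : Fintype (Pat ι) := Fintype.ofFinite _
  have h1 : ∀ p : Pat ι, ∃ r : ℝ, 0 ≤ r ∧ V (Pi.single p 1) = r := by
    intro p
    have h2 := hV (Pi.single p 1) (fun q => by
      by_cases h : q = p
      · subst h; simp
      · simp [h])
    have e : (fun q => ((Pi.single p (1 : ℝ) : Pat ι → ℝ) q : ℂ)) = (Pi.single p 1 : Pat ι → ℂ) := by
      funext q
      by_cases h : q = p
      · subst h; simp
      · simp [h]
    rw [e] at h2
    exact h2
  choose r hr hr1 using h1
  have h3 : ∀ n', V (F n') = ∑ p, F n' p * (r p : ℂ) := by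
    intro n'
    conv_lhs => rw [pi_eq_sum_univ (F n')]
    rw [map_sum]
    refine Finset.sum_congr rfl fun p _ => ?_
    have e : (fun q => if p = q then (1 : ℂ) else 0) = Pi.single p 1 := by
      funext q
      by_cases h : p = q
      · subst h; simp
      · simp [h, Ne.symm h]
    rw [e, map_smul, hr1, smul_eq_mul]
  refine (NP.sum Finset.univ (F := fun p n' => F n' p * (r p : ℂ)) fun p _ =>
    (hF p).mul (NP.const (hr p))).congr h3

theorem np_pr [Finite ι] {V V' : Fnl ι} (hV : PosC V) (hV' : PosC V') {F : ℂ → LPat (ZMod 2) ι → ℂ}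
    (hF : ∀ P, NP (fun n' => F n' P)) : NP (fun n' => pr (ZMod 2) V V' (F n')) := by
  have h1 : ∀ p : Pat ι, NP (fun n' => V' fun q => F n' (ofP (ZMod 2) (un p q))) := fun p =>
    np_fnl hV' fun q => hF _
  exact (np_fnl hV (F := fun n' p => V' fun q => F n' (ofP (ZMod 2) (un p q))) h1).congr
    fun n' => pr_apply _ _ _

/-- The ring functional is positive. -/
theorem posC_VD [Finite ι] {X : List ι} {c d e : ι} (hn : X.Nodup) (hcd : c ≠ d) (hce : c ≠ e)
    (hde : d ≠ e) (hc : c ∉ X) (hd : d ∉ X) (he : e ∉ X) : PosC (VD c d X) := by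
  have hX : ([] : List ι) ++ (X ++ []) = X := by simp
  have h1 := ring_dom (X1 := []) (G := X) (X2 := []) (c := c) (d := d) (e := e)
    (V := VV (z0 (ι := ι)) X) (W := VV (z0 (ι := ι)) []) (Vr := VD c d X) (by rwa [hX]) hcd hce hde
    (by rwa [hX]) (by rwa [hX]) (by rwa [hX]) (by rw [hX]; exact majR_all hn hcd hc hd)
    (isC_fst hn he) (by simpa using isC_fst (X := []) List.nodup_nil (by simp))
    (by rw [hX]; exact isD_VD hn hcd hc hd)
  exact h1.2.1

/-- The partition function of the sphere lattice is a polynomial with nonnegative coefficients. -/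
theorem np_ZD [Finite ι] {L1 L2 : List (ι × ι)} {c d e : ι} (hG : Gd (L1 ++ L2))
    (hs : Spare c d e (L1 ++ L2)) : NP (fun n' => ZD n' c d L1 L2) := by
  unfold ZD Zp
  refine np_pr (posC_VD hG.fst hs.cd hs.ce hs.de hs.c1 hs.d1 hs.e1)
    (posC_VD (List.nodup_reverse.2 hG.snd) hs.cd hs.ce hs.de (nr hs.c2) (nr hs.d2) (nr hs.e2)) ?_
  intro P
  exact np_gm hG (gau (chi L1) P)

end gm

/-- **The partition function of the sphere lattice** with `m` rows on both sides is a polynomial in `n'` with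
nonnegative coefficients and the value `1` at `0`. -/
theorem ZZ_poly (m : ℕ) : ∃ P : ℝ[X], (∀ k, 0 ≤ P.coeff k) ∧ P.eval 0 = 1 ∧ ∀ n' : ℂ, ZZ n' m = aeval n' P := by
  have hc : ∀ j : Fin 2, j * m + m ≤ 2 * m := fun j => by have := j.2; nlinarith
  set s : Fin 2 → List (St (2 * m) × St (2 * m)) := fun j => (seg (j * m) m (hc j)).map lk with hs
  have hl : ∀ j, (s j).length = m := fun j => by rw [hs]; simp only [List.length_map, seg_length]
  have hG : Gd (s 0 ++ s 1) := by
    simp only [hs, ← List.map_append]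
    apply Gd_lk
    rw [List.nodup_append']
    refine ⟨seg_nodup _, seg_nodup _, ?_⟩
    intro k h1 h2
    rw [mem_seg] at h1 h2
    simp only [Fin.isValue, Fin.val_zero, Fin.val_one, zero_mul, one_mul, zero_add] at h1 h2
    omega
  have hi : Function.Injective (fun k : Fin 4 => (Sum.inr k : St (2 * m))) := Sum.inr_injective
  have hs4 : ∀ k : Fin 4, ∀ t ∈ s 0 ++ s 1, (Sum.inr k : St (2 * m)) ≠ t.1 ∧ Sum.inr k ≠ t.2 := by
    intro k t ht
    simp only [hs, ← List.map_append, List.mem_map] at ht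
    obtain ⟨i, -, rfl⟩ := ht
    exact ⟨by simp [lk], by simp [lk]⟩
  have ms : ∀ k : Fin 4, (Sum.inr k : St (2 * m)) ∉ (s 0 ++ s 1).map Prod.fst ∧
      (Sum.inr k : St (2 * m)) ∉ (s 0 ++ s 1).map Prod.snd := fun k => by
    constructor
    · intro h
      obtain ⟨t, ht, e⟩ := List.mem_map.1 h
      exact (hs4 k t ht).1 e.symm
    · intro h
      obtain ⟨t, ht, e⟩ := List.mem_map.1 h
      exact (hs4 k t ht).2 e.symm
  have ne : ∀ a b : Fin 4, a ≠ b → (Sum.inr a : St (2 * m)) ≠ Sum.inr b := fun a b hab e => hab (hi e)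
  have hsp : NUG.Spare (Sum.inr 0 : St (2 * m)) (Sum.inr 1) (Sum.inr 2) (s 0 ++ s 1) :=
    ⟨ne 0 1 (by decide), ne 0 2 (by decide), ne 1 2 (by decide), (ms 0).1, (ms 1).1, (ms 2).1,
      (ms 0).2, (ms 1).2, (ms 2).2⟩
  obtain ⟨P, hP, hP1⟩ := np_ZD hG hsp
  have h2 : ∀ n' : ℂ, ZZ n' m = aeval n' P := fun n' => by
    rw [← hP1 n']
    exact (ZD_eq_ZZ (s4 := fun k : Fin 4 => (Sum.inr k : St (2 * m))) n' (hl 0) (hl 1) hG hi hs4).symm
  refine ⟨P, hP, ?_, h2⟩
  have h3 := h2 0
  have h4 : ZZ 0 m = 1 := div_self (Wd_ne m)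
  rw [h4] at h3
  have h5 : (aeval (0 : ℂ) P : ℂ) = ((P.eval 0 : ℝ) : ℂ) := by
    have := (aeval_algebraMap_apply_eq_algebraMap_eval (A := ℂ) (0 : ℝ) P)
    simpa using this
  rw [h5] at h3
  exact_mod_cast h3.symm

end Pool.Agent.NUB
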